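import Pool.Agent.H58.FN.Targets

/-!
# (ODD) arithmetic
-/

set_option autoImplicit false

open Pool.Agent.H58.FN

namespace Pool.Agent.H90.FN

theorem pf_ODD : T_ODD := by
  intro n m N B₁ B₂ _ hm hmn h
  have hc : m ∣ n.choose 2 := by
    have h2 : n.choose 2 * 2 = n * (n - 1) := by
      rw [Nat.choose_two_right]
      exact Nat.div_mul_cancel (Nat.even_mul_pred_self n).two_dvd
    have h3 : m ∣ n.choose 2 * 2 := h2 ▸ hmn.mul_right _
    exact (Nat.Coprime.dvd_mul_right (Nat.coprime_two_right.2 hm)).1 h3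
  have h1 : (m : ℤ) ∣ n * B₁ + n.choose 2 * B₂ :=
    dvd_add ((Int.natCast_dvd_natCast.2 hmn).mul_right _)
      ((Int.natCast_dvd_natCast.2 hc).mul_right _)
  have hco : IsCoprime (m : ℤ) (64 ^ n) := by
    have h4 : IsCoprime (m : ℤ) ((2 : ℕ) : ℤ) :=
      Nat.isCoprime_iff_coprime.2 (Nat.coprime_two_right.2 hm)
    have h5 : (64 : ℤ) ^ n = (((2 : ℕ) : ℤ)) ^ (6 * n) := by
      rw [pow_mul]
      norm_num
    rw [h5]
    exact h4.pow_right
  rcases h with h | h
  · rw [← h] at h1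
    exact hco.dvd_of_dvd_mul_left h1
  · rw [← h] at h1
    exact (dvd_neg.1 (hco.dvd_of_dvd_mul_left h1))

end Pool.Agent.H90.FN
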